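import Pool.Agent.helper56.CY.Spec

/-!
# Project cy (MP_45d809_mp), row COU
-/

set_option autoImplicit false

namespace Pool.Agent.CY
open Finset CT

theorem COU_aux (i : Fin 4 → Fin 4) (hi : Function.Injective i) (f : Fin 4 → ℕ) (m : ℕ)
    (h0 : f (i 0) = m) (h1 : f (i 1) = m) (h2 : f (i 2) ≠ m)
    (hev : Even ((univ : Finset (Fin 4)).filter fun a => f a = f (i 2)).card) : f (i 2) = f (i 3) := by
  by_contra h3
  have hs : Function.Surjective i := Finite.injective_iff_surjective.1 hi
  have h : ((univ : Finset (Fin 4)).filter fun a => f a = f (i 2)) = {i 2} := by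
    ext a
    rw [mem_filter, mem_singleton]
    constructor
    · rintro ⟨_, ha⟩
      obtain ⟨l, rfl⟩ := hs a
      fin_cases l
      · exact (h2 (ha.symm.trans h0)).elim
      · exact (h2 (ha.symm.trans h1)).elim
      · rfl
      · exact (h3 ha.symm).elim
    · rintro rfl
      exact ⟨mem_univ _, rfl⟩
  rw [h, card_singleton] at hev
  exact absurd hev (by decide)

theorem COU_mem {V : Type} [DecidableEq V] {S : Finset V} {u : V} (hu : u ∈ S) (a : Fin 4) :
    ((u, a) : V × Fin 4) ∈ dts S := by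
  unfold dts
  exact mem_product.2 ⟨hu, mem_univ _⟩

/-- **COU** -/
theorem COU : COU_stmt := by
  intro V _ L e u v w i j k c m h
  have hnd := h.tri.nd
  have huv : u ≠ v := fun hh => by
    rw [hh] at hnd
    exact (List.nodup_cons.1 hnd).1 (by simp)
  have huw : u ≠ w := fun hh => by
    rw [hh] at hnd
    exact (List.nodup_cons.1 hnd).1 (by simp)
  have hvw : v ≠ w := fun hh => by
    have hnd' := (List.nodup_cons.1 hnd).2
    rw [hh] at hnd'
    exact (List.nodup_cons.1 hnd').1 (by simp)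
  have hu : u ∈ (u :: v :: w :: L).toFinset := by simp
  have hv : v ∈ (u :: v :: w :: L).toFinset := by simp
  have hw : w ∈ (u :: v :: w :: L).toFinset := by simp
  have nei : ∀ a b : Fin 4, a ≠ b → i a ≠ i b := fun a b hab h' => hab (h.tri.hi h')
  have nej : ∀ a b : Fin 4, a ≠ b → j a ≠ j b := fun a b hab h' => hab (h.tri.hj h')
  have nek : ∀ a b : Fin 4, a ≠ b → k a ≠ k b := fun a b hab h' => hab (h.tri.hk h')
  have u0 : c (u, i 0) = m := (h.col _ (COU_mem hu _)).2 (Or.inl rfl)
  have u1 : c (u, i 1) = m := (h.col _ (COU_mem hu _)).2 (Or.inr (Or.inl rfl))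
  have v0 : c (v, j 0) = m := (h.col _ (COU_mem hv _)).2 (Or.inr (Or.inr (Or.inl rfl)))
  have v1 : c (v, j 1) = m := (h.col _ (COU_mem hv _)).2 (Or.inr (Or.inr (Or.inr (Or.inl rfl))))
  have w0 : c (w, k 0) = m := (h.col _ (COU_mem hw _)).2 (Or.inr (Or.inr (Or.inr (Or.inr (Or.inl rfl)))))
  have w1 : c (w, k 1) = m := (h.col _ (COU_mem hw _)).2 (Or.inr (Or.inr (Or.inr (Or.inr (Or.inr rfl)))))
  have u2 : c (u, i 2) ≠ m := by
    intro hh
    rcases (h.col _ (COU_mem hu _)).1 hh with h1 | h1 | h1 | h1 | h1 | h1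
    · exact nei 2 0 (by decide) (congrArg Prod.snd h1)
    · exact nei 2 1 (by decide) (congrArg Prod.snd h1)
    · exact huv (congrArg Prod.fst h1)
    · exact huv (congrArg Prod.fst h1)
    · exact huw (congrArg Prod.fst h1)
    · exact huw (congrArg Prod.fst h1)
  have v2 : c (v, j 2) ≠ m := by
    intro hh
    rcases (h.col _ (COU_mem hv _)).1 hh with h1 | h1 | h1 | h1 | h1 | h1
    · exact huv (congrArg Prod.fst h1).symm
    · exact huv (congrArg Prod.fst h1).symm
    · exact nej 2 0 (by decide) (congrArg Prod.snd h1)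
    · exact nej 2 1 (by decide) (congrArg Prod.snd h1)
    · exact hvw (congrArg Prod.fst h1)
    · exact hvw (congrArg Prod.fst h1)
  have w2 : c (w, k 2) ≠ m := by
    intro hh
    rcases (h.col _ (COU_mem hw _)).1 hh with h1 | h1 | h1 | h1 | h1 | h1
    · exact huw (congrArg Prod.fst h1).symm
    · exact huw (congrArg Prod.fst h1).symm
    · exact hvw (congrArg Prod.fst h1).symm
    · exact hvw (congrArg Prod.fst h1).symm
    · exact nek 2 0 (by decide) (congrArg Prod.snd h1)
    · exact nek 2 1 (by decide) (congrArg Prod.snd h1)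
  exact ⟨⟨COU_aux i h.tri.hi (fun a => c (u, a)) m u0 u1 u2 (h.ev.2 u hu _),
    COU_aux j h.tri.hj (fun a => c (v, a)) m v0 v1 v2 (h.ev.2 v hv _),
    COU_aux k h.tri.hk (fun a => c (w, a)) m w0 w1 w2 (h.ev.2 w hw _)⟩, u2, v2, w2⟩

end Pool.Agent.CY
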