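import Pool.Agent.helper56.CY.Spec

/-!
# Project cy (MP_45d809_mp), row RDN
-/

set_option autoImplicit false

namespace Pool.Agent.CY
open Finset CT

theorem RDN_mem {V : Type} [DecidableEq V] {L : List V} {d : V × Fin 4} :
    d ∈ dts L.toFinset ↔ d.1 ∈ L := by
  unfold dts
  rw [mem_product, List.mem_toFinset]
  exact and_iff_left (mem_univ _)

theorem RDN_cred {V : Type} [DecidableEq V] {c : V × Fin 4 → ℕ} {v w : V} {j k : Fin 4 → Fin 4}
    {d : V × Fin 4} (h0 : d ≠ (v, j 0)) (h1 : d ≠ (v, j 1)) : cred c v w j k d = c d := by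
  unfold cred
  exact if_neg (fun h => h.elim h0 h1)

/-- **RDN** -/
theorem RDN (hCOU : COU_stmt) : RDN_stmt := by
  intro V _ L e u v w i j k c m h
  obtain ⟨⟨_, _, _⟩, _, _, hw2⟩ := hCOU V L e u v w i j k c m h
  have hnd := h.tri.nd
  have n1 := List.nodup_cons.1 hnd
  have n2 := List.nodup_cons.1 n1.2
  have n3 := List.nodup_cons.1 n2.2
  have huL : u ∉ L := fun hh => n1.1 (by simp [hh])
  have hvL : v ∉ L := fun hh => n2.1 (by simp [hh])
  have hwL : w ∉ L := n3.1
  have huv : u ≠ v := fun hh => n1.1 (by simp [hh])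
  have huw : u ≠ w := fun hh => n1.1 (by simp [hh])
  have hvw : v ≠ w := fun hh => n2.1 (by simp [hh])
  have hcL : ∀ d : V × Fin 4, d.1 ∈ L → cred c v w j k d = c d := fun d hd =>
    RDN_cred (fun hh => hvL (by rw [hh] at hd; exact hd)) (fun hh => hvL (by rw [hh] at hd; exact hd))
  have si : Function.Surjective i := Finite.injective_iff_surjective.1 h.tri.hi
  have sj : Function.Surjective j := Finite.injective_iff_surjective.1 h.tri.hj
  have sk : Function.Surjective k := Finite.injective_iff_surjective.1 h.tri.hk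
  have nej : ∀ a b : Fin 4, a ≠ b → j a ≠ j b := fun a b hab h' => hab (h.tri.hj h')
  have u0 : c (u, i 0) = m := (h.col _ (RDN_mem.2 (by simp))).2 (Or.inl rfl)
  have u1 : c (u, i 1) = m := (h.col _ (RDN_mem.2 (by simp))).2 (Or.inr (Or.inl rfl))
  have v0 : c (v, j 0) = m := (h.col _ (RDN_mem.2 (by simp))).2 (Or.inr (Or.inr (Or.inl rfl)))
  have v1 : c (v, j 1) = m := (h.col _ (RDN_mem.2 (by simp))).2 (Or.inr (Or.inr (Or.inr (Or.inl rfl))))
  have w0 : c (w, k 0) = m :=
    (h.col _ (RDN_mem.2 (by simp))).2 (Or.inr (Or.inr (Or.inr (Or.inr (Or.inl rfl)))))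
  have w1 : c (w, k 1) = m :=
    (h.col _ (RDN_mem.2 (by simp))).2 (Or.inr (Or.inr (Or.inr (Or.inr (Or.inr rfl)))))
  ext a
  rw [mem_image, mem_erase, mem_image]
  constructor
  · rintro ⟨d, hd, rfl⟩
    rw [RDN_mem, List.mem_cons] at hd
    by_cases h0 : d = (v, j 0) ∨ d = (v, j 1)
    · have h1 : cred c v w j k d = c (w, k 2) := by
        unfold cred
        exact if_pos h0
      rw [h1]
      exact ⟨hw2, (w, k 2), RDN_mem.2 (by simp), rfl⟩
    · rw [not_or] at h0
      rw [RDN_cred h0.1 h0.2]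
      have hd' : d ∈ dts (u :: v :: w :: L).toFinset := RDN_mem.2 (by
        rcases hd with hd | hd
        · simp [hd]
        · simp [hd])
      refine ⟨fun hm => ?_, d, hd', rfl⟩
      have hdu : d.1 ≠ u := by
        rcases hd with hd | hd
        · rw [hd]
          exact huv.symm
        · intro hh
          rw [hh] at hd
          exact huL hd
      have hdw : d.1 ≠ w := by
        rcases hd with hd | hd
        · rw [hd]
          exact hvw
        · intro hh
          rw [hh] at hd
          exact hwL hd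
      rcases (h.col d hd').1 hm with h1 | h1 | h1 | h1 | h1 | h1
      · exact hdu (by rw [h1])
      · exact hdu (by rw [h1])
      · exact h0.1 h1
      · exact h0.2 h1
      · exact hdw (by rw [h1])
      · exact hdw (by rw [h1])
  · rintro ⟨ham, d, hd, rfl⟩
    rw [RDN_mem] at hd
    obtain ⟨x, b⟩ := d
    simp only [List.mem_cons] at hd
    rcases hd with hd | hd | hd | hd
    · subst hd
      obtain ⟨l, rfl⟩ := si b
      fin_cases l
      · exact (ham u0).elim
      · exact (ham u1).elim
      · exact ⟨e (x, i 2), RDN_mem.2 (List.mem_cons_of_mem _ h.tri.u2), by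
          rw [hcL _ h.tri.u2, h.ev.1]; rfl⟩
      · exact ⟨e (x, i 3), RDN_mem.2 (List.mem_cons_of_mem _ h.tri.u3), by
          rw [hcL _ h.tri.u3, h.ev.1]; rfl⟩
    · subst hd
      obtain ⟨l, rfl⟩ := sj b
      fin_cases l
      · exact (ham v0).elim
      · exact (ham v1).elim
      · exact ⟨(x, j 2), RDN_mem.2 (by simp), RDN_cred
          (fun hh => nej 2 0 (by decide) (congrArg Prod.snd hh))
          (fun hh => nej 2 1 (by decide) (congrArg Prod.snd hh))⟩
      · exact ⟨(x, j 3), RDN_mem.2 (by simp), RDN_cred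
          (fun hh => nej 3 0 (by decide) (congrArg Prod.snd hh))
          (fun hh => nej 3 1 (by decide) (congrArg Prod.snd hh))⟩
    · subst hd
      obtain ⟨l, rfl⟩ := sk b
      fin_cases l
      · exact (ham w0).elim
      · exact (ham w1).elim
      · exact ⟨e (x, k 2), RDN_mem.2 (List.mem_cons_of_mem _ h.tri.w2), by
          rw [hcL _ h.tri.w2, h.ev.1]; rfl⟩
      · exact ⟨e (x, k 3), RDN_mem.2 (List.mem_cons_of_mem _ h.tri.w3), by
          rw [hcL _ h.tri.w3, h.ev.1]; rfl⟩
    · exact ⟨(x, b), RDN_mem.2 (List.mem_cons_of_mem _ hd), hcL _ hd⟩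

end Pool.Agent.CY
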